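import Mathlib
import Pool.Agent.Y388.BK.Main

/-!
# C(B(κ)^n) and products of one-point compactifications of discrete spaces

Full answer to Q1 (no), in a much stronger form: instead of `C(A(κ)^ℕ)` any space
`C(∏ j, A(Λ j))`, where `(Λ j)` is an arbitrary family of discrete spaces of arbitrary
cardinalities (also uncountable index sets, e.g. `A(λ)^J` for all `λ` and `J`); instead of
isomorphic spaces, isomorphic copies which are complemented subspaces; instead of the powers `B(κ)^n`
any compact space `L` with a retraction onto the positive part `B⁺(κ)` of `B(κ)` (for instance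
`B(κ)^ι` and `B⁺(κ)^ι` for every nonempty `ι`, `B⁺(κ)` being homeomorphic to the space of
probability measures on `A(κ)`).

The proof is a new version (arbitrary families of slots: a Δ-system argument for slots and labels
together, the levels only share root slots) of the argument for `A(κ)^ℕ` in
`Pool.Agent.Helper358.Compl`.
-/

set_option autoImplicit false

namespace Pool.Agent.Results.MP_882ac6_an.NoComplementedCopy

open Pool.Agent.Helper358.LOne Pool.Agent.Helper358.Compl Pool.Agent.Y388.BK

universe u v w z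

/-- The positive part `B⁺(κ) = {x ∈ ℝ^κ : x ≥ 0, ∑ x_i ≤ 1}` of the ball `B(κ)` (topology of
pointwise convergence). -/
def BallPos (κ : Type u) : Set (κ → ℝ) :=
  {x | (∀ k, 0 ≤ x k) ∧ ∀ F : Finset κ, ∑ i ∈ F, x i ≤ 1}

/-- `X` is isomorphic to a complemented subspace of `Y`: the identity of `X` factors through `Y`. -/
def ComplementedIn (X : Type v) (Y : Type w) [NormedAddCommGroup X] [NormedSpace ℝ X]
    [NormedAddCommGroup Y] [NormedSpace ℝ Y] : Prop :=
  ∃ (S : X →L[ℝ] Y) (T : Y →L[ℝ] X), ∀ f, T (S f) = f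

/-- the absolute value -/
noncomputable def absB (κ : Type u) : C(Ball κ, BallPos κ) where
  toFun x := ⟨fun k => |x.1 k|, fun k => abs_nonneg _, fun F => x.2 F⟩
  continuous_toFun := by
    apply Continuous.subtype_mk
    exact continuous_pi fun k => ((continuous_apply k).comp continuous_subtype_val).abs

/-- the inclusion -/
noncomputable def incB (κ : Type u) : C(BallPos κ, Ball κ) where
  toFun x := ⟨x.1, fun F => by
    rw [Finset.sum_congr rfl fun i _ => abs_of_nonneg (x.2.1 i)]
    exact x.2.2 F⟩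
  continuous_toFun := by
    apply Continuous.subtype_mk
    exact continuous_subtype_val

theorem absB_incB_aux {κ : Type u} (x : BallPos κ) : absB κ (incB κ x) = x := by
  apply Subtype.ext
  funext k
  exact abs_of_nonneg (x.2.1 k)

instance (κ : Type u) : CompactSpace (BallPos κ) := by
  have h : Set.range (absB κ) = Set.univ :=
    Set.range_eq_univ.2 fun x => ⟨incB κ x, absB_incB_aux x⟩
  refine ⟨?_⟩
  rw [← h]
  exact isCompact_range (absB κ).continuous

theorem absB_incB {κ : Type u} (x : BallPos κ) : absB κ (incB κ x) = x := by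
  apply Subtype.ext
  funext k
  exact abs_of_nonneg (x.2.1 k)

theorem general {κ : Type u} [Uncountable κ] {L : Type z} [TopologicalSpace L] [CompactSpace L]
    (i : C(BallPos κ, L)) (r : C(L, BallPos κ)) (hir : ∀ x, r (i x) = x)
    {J : Type v} (Λ : J → Type w) [∀ j, TopologicalSpace (Λ j)] [∀ j, DiscreteTopology (Λ j)] :
    ¬ ComplementedIn C(L, ℝ) C((∀ j, OnePoint (Λ j)), ℝ) := by
  rintro ⟨S', T', h⟩
  let p : C(L, Ball κ) := (incB κ).comp r
  let d : C(Ball κ, L) := i.comp (absB κ)
  let A : C(Ball κ, ℝ) →L[ℝ] C(L, ℝ) :=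
    { toFun := fun g => g.comp p
      map_add' := fun _ _ => by ext x; rfl
      map_smul' := fun _ _ => by ext x; rfl
      cont := ContinuousMap.continuous_precomp p }
  let B : C(L, ℝ) →L[ℝ] C(Ball κ, ℝ) :=
    { toFun := fun g => g.comp d
      map_add' := fun _ _ => by ext x; rfl
      map_smul' := fun _ _ => by ext x; rfl
      cont := ContinuousMap.continuous_precomp d }
  refine no_compl' (S'.comp A) (B.comp T') fun c γ => ?_
  change B (T' (S' (A (uf c γ)))) = uf c γ
  rw [h]
  ext x
  change uf c γ (incB κ (r (i (absB κ x)))) = uf c γ x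
  rw [hir, uf_apply, uf_apply]
  change min |(|x.1 γ|)| c = min |x.1 γ| c
  rw [abs_abs]

/-- Let `κ` be uncountable (and discrete).

* `C(B(κ)^ι)` is not isomorphic to `C(A(κ)^ℕ)`, for every nonempty `ι`, in particular for all
  powers `B(κ)^n`, `1 ≤ n ≤ ω`: the full answer to Q1.
* For every compact space `L` with a retraction onto (a copy of) `B⁺(κ)` and every family
  `(Λ j)` of discrete spaces, `C(L)` is not isomorphic to a complemented subspace of
  `C(∏ j, A(Λ j))`.
* In particular neither `C(B(κ)^ι)` nor `C(B⁺(κ)^ι)` is isomorphic to a complemented subspace of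
  `C(∏ j, A(Λ j))`, for every nonempty `ι` and every family `(Λ j)` of discrete spaces. -/
theorem result (κ : Type u) [TopologicalSpace κ] [DiscreteTopology κ] [Uncountable κ] :
    (∀ (ι : Type z) [Nonempty ι], IsEmpty (C(ι → Ball κ, ℝ) ≃L[ℝ] C(ℕ → OnePoint κ, ℝ))) ∧
    (∀ (L : Type z) [TopologicalSpace L] [CompactSpace L] (i : C(BallPos κ, L))
      (r : C(L, BallPos κ)), (∀ x, r (i x) = x) →
      ∀ (J : Type v) (Λ : J → Type w) [∀ j, TopologicalSpace (Λ j)]
        [∀ j, DiscreteTopology (Λ j)],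
        ¬ ComplementedIn C(L, ℝ) C((∀ j, OnePoint (Λ j)), ℝ)) ∧
    (∀ (ι : Type z) [Nonempty ι] (J : Type v) (Λ : J → Type w) [∀ j, TopologicalSpace (Λ j)]
        [∀ j, DiscreteTopology (Λ j)],
        ¬ ComplementedIn C(ι → Ball κ, ℝ) C((∀ j, OnePoint (Λ j)), ℝ) ∧
        ¬ ComplementedIn C(ι → BallPos κ, ℝ) C((∀ j, OnePoint (Λ j)), ℝ)) := by
  have h3 : ∀ (ι : Type z) [Nonempty ι] (J : Type v) (Λ : J → Type w)
      [∀ j, TopologicalSpace (Λ j)] [∀ j, DiscreteTopology (Λ j)],
      ¬ ComplementedIn C(ι → Ball κ, ℝ) C((∀ j, OnePoint (Λ j)), ℝ) := by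
    intro ι hι J Λ _ _
    obtain ⟨a⟩ := hι
    let i : C(BallPos κ, ι → Ball κ) := ⟨fun x _ => incB κ x, continuous_pi fun _ =>
      (incB κ).continuous⟩
    let r : C(ι → Ball κ, BallPos κ) := (absB κ).comp ⟨fun x => x a, continuous_apply a⟩
    exact general i r (fun x => absB_incB x) Λ
  refine ⟨?_, fun L _ _ i r hir J Λ _ _ => general i r hir Λ,
    fun ι _ J Λ _ _ => ⟨h3 ι J Λ, ?_⟩⟩
  swap
  · obtain ⟨a⟩ := ‹Nonempty ι›
    let i : C(BallPos κ, ι → BallPos κ) := ⟨fun x _ => x, continuous_pi fun _ => continuous_id⟩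
    let r : C(ι → BallPos κ, BallPos κ) := ⟨fun x => x a, continuous_apply a⟩
    exact general i r (fun x => rfl) Λ
  intro ι hι
  refine ⟨fun e => ?_⟩
  obtain ⟨a⟩ := hι
  let i : C(BallPos κ, ι → Ball κ) := ⟨fun x _ => incB κ x, continuous_pi fun _ =>
    (incB κ).continuous⟩
  let r : C(ι → Ball κ, BallPos κ) := (absB κ).comp ⟨fun x => x a, continuous_apply a⟩
  exact general i r (fun x => absB_incB x) (fun _ : ℕ => κ)
    ⟨(e : C(ι → Ball κ, ℝ) →L[ℝ] C(ℕ → OnePoint κ, ℝ)),
      (e.symm : C(ℕ → OnePoint κ, ℝ) →L[ℝ] C(ι → Ball κ, ℝ)),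
      fun f => e.symm_apply_apply f⟩

end Pool.Agent.Results.MP_882ac6_an.NoComplementedCopy
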